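import Pool.Agent.W602.GT.Defs
import Pool.Agent.W602.GT.Der

set_option autoImplicit false

/-!
Project KC (helper192), job KC5, part 1: bicanonical forms on the complement of a hypersurface in a
torus, in abstract form.
-/

namespace Pool.Agent.Y290.KC

open FF Pool.Agent.W602.GT

variable {K : Type} [Field K] [Algebra ℂ K] {n : ℕ}

/-! ### Regular elements -/

theorem reg_sum (P : Place ℂ K) {ι : Type} (s : Finset ι) (f : ι → K)
    (h : ∀ i ∈ s, P.Reg (f i)) : P.Reg (∑ i ∈ s, f i) :=
  (sum_mem (S := P.O) (fun i hi => (h i hi : f i ∈ P.O)) : _)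

theorem reg_prod (P : Place ℂ K) {ι : Type} (s : Finset ι) (f : ι → K)
    (h : ∀ i ∈ s, P.Reg (f i)) : P.Reg (∏ i ∈ s, f i) :=
  (prod_mem (S := P.O) (fun i hi => (h i hi : f i ∈ P.O)) : _)

theorem reg_det (P : Place ℂ K) (W : Matrix (Fin n) (Fin n) K) (h : ∀ i j, P.Reg (W i j)) :
    P.Reg W.det := by
  rw [Matrix.det_apply]
  refine reg_sum P _ _ fun σ _ => ?_
  have h1 : P.Reg (∏ i, W (σ i) i) := reg_prod P _ _ fun i _ => h _ _
  rcases Int.units_eq_one_or (Equiv.Perm.sign σ) with h2 | h2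
  · rw [h2, one_smul]; exact h1
  · rw [h2, Units.neg_smul, one_smul]; exact P.reg_neg h1

theorem reg_adj (P : Place ℂ K) (W : Matrix (Fin n) (Fin n) K) (h : ∀ i j, P.Reg (W i j))
    (i j : Fin n) : P.Reg (W.adjugate i j) := by
  rw [Matrix.adjugate_apply]
  refine reg_det P _ fun a b => ?_
  rw [Matrix.updateRow_apply]
  split_ifs
  · rw [Pi.single_apply]
    split_ifs
    · exact P.reg_one
    · exact P.reg_zero
  · exact h a b

/-! ### The forms -/

/-- the matrix of the logarithmic derivatives -/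
def W (x : Fin n → Kˣ) (D : Fin n → Derivation ℂ K K) : Matrix (Fin n) (Fin n) K :=
  Matrix.of fun i k => D i (x k : K) / (x k : K)

/-- the forms -/
def om (x : Fin n → Kˣ) (u : Fin n → K) (j : Fin (n + 1)) (D : Fin n → Derivation ℂ K K) : K :=
  (W x D).det ^ 2 * Fin.cons (α := fun _ => K) 1 u j

theorem om_pluri (x : Fin n → Kˣ) (u : Fin n → K) (j : Fin (n + 1)) :
    IsPluri 2 (om x u j) := by
  intro A D
  have h : W x (fun i => ∑ j, A i j • D j) = A * W x D := by
    ext i k
    have h1 : ∀ s : Finset (Fin n), (∑ j ∈ s, A i j • D j) (x k : K) =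
        ∑ j ∈ s, A i j * D j (x k : K) := by
      intro s
      classical
      induction s using Finset.induction_on with
      | empty => simp
      | insert a s ha ih => rw [Finset.sum_insert ha, Finset.sum_insert ha, Derivation.add_apply, ih,
          Derivation.smul_apply, smul_eq_mul]
    rw [Matrix.mul_apply]
    simp only [W, Matrix.of_apply]
    rw [h1, Finset.sum_div]
    exact Finset.sum_congr rfl fun j _ => mul_div_assoc _ _ _
  unfold om
  rw [h, Matrix.det_mul]
  ring

/-- Cramer's rule -/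
theorem cramer (x : Fin n → Kˣ) (u : Fin n → K) (gx : K)
    (hch : ∀ D : Derivation ℂ K K, D gx / gx = ∑ k, D (x k : K) / (x k : K) * u k)
    (D : Fin n → Derivation ℂ K K) (k : Fin n) :
    (W x D).det * u k = ∑ i, (W x D).adjugate k i * (D i gx / gx) := by
  have h1 : ∀ i, D i gx / gx = ((W x D).mulVec u) i := fun i => by
    rw [hch]; rfl
  simp only [h1]
  have h2 : (W x D).adjugate.mulVec ((W x D).mulVec u) = (W x D).det • u := by
    rw [Matrix.mulVec_mulVec, Matrix.adjugate_mul, Matrix.smul_mulVec, Matrix.one_mulVec]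
  have h3 := congrFun h2 k
  rw [Pi.smul_apply, smul_eq_mul] at h3
  rw [← h3]
  rfl

theorem om_zero (x : Fin n → Kˣ) (u : Fin n → K) (D : Fin n → Derivation ℂ K K) :
    om x u 0 D = (W x D).det ^ 2 := by
  unfold om
  rw [Fin.cons_zero, mul_one]

theorem om_succ (x : Fin n → Kˣ) (u : Fin n → K) (k : Fin n) (D : Fin n → Derivation ℂ K K) :
    om x u k.succ D = (W x D).det ^ 2 * u k := by
  unfold om
  rw [Fin.cons_succ]

theorem om_log (x : Fin n → Kˣ) (u : Fin n → K) (gx : K)
    (hch : ∀ D : Derivation ℂ K K, D gx / gx = ∑ k, D (x k : K) / (x k : K) * u k)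
    (P : Place ℂ K) (j : Fin (n + 1)) : LogAt P (om x u j) := by
  intro D hD
  have hW : ∀ i k, P.Reg (W x D i k) := fun i k => hD i _
  have hd := reg_det P _ hW
  refine Fin.cases ?_ (fun k => ?_) j
  · rw [om_zero, pow_two]
    exact P.reg_mul hd hd
  · rw [om_succ, pow_two, mul_assoc, cramer x u gx hch]
    exact P.reg_mul hd (reg_sum P _ _ fun i _ => P.reg_mul (reg_adj P _ hW _ _) (hD i _))

theorem W_eq (x : Fin n → Kˣ) (D : Fin n → Derivation ℂ K K) :
    (W x D).det = (Matrix.of fun i k : Fin n => D i (x k : K)).det * ∏ k, (x k : K)⁻¹ := by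
  have h : W x D = (Matrix.of fun i k : Fin n => D i (x k : K)) *
      Matrix.diagonal (fun k => (x k : K)⁻¹) := by
    ext i k
    rw [Matrix.mul_diagonal]
    simp only [W, Matrix.of_apply, div_eq_mul_inv]
  rw [h, Matrix.det_mul, Matrix.det_diagonal]

theorem om_reg (x : Fin n → Kˣ) (u : Fin n → K) (gx : K) (hg0 : gx ≠ 0)
    (hch : ∀ D : Derivation ℂ K K, D gx / gx = ∑ k, D (x k : K) / (x k : K) * u k)
    (P : Place ℂ K) (hx : ∀ i, P.ord (x i : K) = 0) (hg : 0 ≤ P.ord gx) (hg1 : P.ord gx ≠ 1)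
    (hdeep : 2 ≤ P.ord gx → ∀ D : Fin n → Derivation ℂ K K, (∀ i, DerReg P (D i)) →
      (Matrix.of fun i k : Fin n => D i (x k : K)).det = 0 ∨
        1 ≤ P.ord (Matrix.of fun i k : Fin n => D i (x k : K)).det)
    (j : Fin (n + 1)) : RegAt P (om x u j) := by
  intro D hD
  have hx1 : ∀ k, P.Reg (x k : K) := fun k => Or.inr (hx k).ge
  have hx2 : ∀ k, P.Reg (x k : K)⁻¹ := fun k => Or.inr (by rw [P.ord_inv, hx k]; simp)
  have hW : ∀ i k, P.Reg (W x D i k) := fun i k => by
    have : W x D i k = D i (x k : K) * (x k : K)⁻¹ := div_eq_mul_inv _ _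
    rw [this]
    exact P.reg_mul (hD i _ (hx1 k)) (hx2 k)
  have hd := reg_det P _ hW
  refine Fin.cases ?_ (fun k => ?_) j
  · rw [om_zero, pow_two]
    exact P.reg_mul hd hd
  rw [om_succ, pow_two, mul_assoc, cramer x u gx hch]
  by_cases h0 : P.ord gx = 0
  · refine P.reg_mul hd (reg_sum P _ _ fun i _ => P.reg_mul (reg_adj P _ hW _ _) ?_)
    rw [div_eq_mul_inv]
    exact P.reg_mul (hD i _ (Or.inr hg)) (Or.inr (by rw [P.ord_inv, h0]; simp))
  · have h2 : 2 ≤ P.ord gx := by omega
    obtain ⟨τ, hτ0, hτ⟩ := P.surj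
    -- the determinant is divisible by `τ`
    have hdet : P.Reg ((W x D).det / τ) := by
      rw [W_eq, mul_div_right_comm]
      refine P.reg_mul ?_ (reg_prod P _ _ fun k _ => hx2 k)
      rcases hdeep h2 D hD with h3 | h3
      · rw [h3, zero_div]; exact P.reg_zero
      · by_cases h4 : (Matrix.of fun i k : Fin n => D i (x k : K)).det = 0
        · rw [h4, zero_div]; exact P.reg_zero
        · right
          rw [P.ord_div h4 hτ0, hτ]
          omega
    -- `τ` times the logarithmic derivatives are regular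
    obtain ⟨m, hm⟩ : ∃ m : ℤ, m = P.ord gx := ⟨_, rfl⟩
    set w : K := gx * (τ ^ m)⁻¹ with hw
    have hτm : τ ^ m ≠ 0 := zpow_ne_zero _ hτ0
    have hw0 : w ≠ 0 := mul_ne_zero hg0 (inv_ne_zero hτm)
    have hgw : gx = τ ^ m * w := by
      rw [hw, mul_comm gx, ← mul_assoc, mul_inv_cancel₀ hτm, one_mul]
    have hwo : P.ord w = 0 := by
      rw [hw, P.ord_mul hg0 (inv_ne_zero hτm), P.ord_inv, P.ord_zpow, hτ, ← hm]
      ring
    have hv : ∀ i, P.Reg (τ * (D i gx / gx)) := by
      intro i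
      have e : τ * (D i gx / gx) = algebraMap ℂ K (m : ℂ) * D i τ + τ * (D i w * w⁻¹) := by
        have e1 : D i gx = τ ^ m * D i w + w * (m * τ ^ (m - 1) * D i τ) := by
          conv_lhs => rw [hgw]
          rw [Derivation.leibniz, Derivation.leibniz_zpow]
          simp only [smul_eq_mul, zsmul_eq_mul]
          ring
        rw [e1]
        conv_lhs => rw [hgw]
        rw [zpow_sub_one₀ hτ0, map_intCast]
        field_simp
        ring
      rw [e]
      refine P.reg_add (P.reg_mul (P.reg_const _) (hD i _ (Or.inr (by rw [hτ]; norm_num)))) ?_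
      refine P.reg_mul (Or.inr (by rw [hτ]; norm_num)) (P.reg_mul (hD i _ (Or.inr hwo.ge)) ?_)
      exact Or.inr (by rw [P.ord_inv, hwo]; simp)
    have e2 : (W x D).det * ∑ i, (W x D).adjugate k i * (D i gx / gx) =
        ((W x D).det / τ) * ∑ i, (W x D).adjugate k i * (τ * (D i gx / gx)) := by
      have e3 : ∑ i, (W x D).adjugate k i * (τ * (D i gx / gx)) =
          τ * ∑ i, (W x D).adjugate k i * (D i gx / gx) := by
        rw [Finset.mul_sum]
        exact Finset.sum_congr rfl fun i _ => by ring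
      rw [e3, ← mul_assoc, div_mul_cancel₀ _ hτ0]
    rw [e2]
    exact P.reg_mul hdet (reg_sum P _ _ fun i _ => P.reg_mul (reg_adj P _ hW _ _) (hv i))

/-! ### The derivations dual to the coordinates -/

theorem basis_of (x : Fin n → Kˣ) (hx : AlgebraicIndependent ℂ (fun i => (x i : K)))
    (hT : IntermediateField.adjoin ℂ (Set.range fun i => (x i : K)) = ⊤) :
    IsTranscendenceBasis ℂ (fun i => (x i : K)) := by
  rw [hx.isTranscendenceBasis_iff_isAlgebraic]
  refine ⟨fun z => ?_⟩
  have hz : z ∈ IntermediateField.adjoin ℂ (Set.range fun i => (x i : K)) := by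
    rw [hT]; trivial
  rw [IntermediateField.mem_adjoin_iff_div] at hz
  obtain ⟨r, hr, s, hs, rfl⟩ := hz
  have h1 : IsAlgebraic (Algebra.adjoin ℂ (Set.range fun i => (x i : K))) r :=
    isAlgebraic_algebraMap (⟨r, hr⟩ : Algebra.adjoin ℂ (Set.range fun i => (x i : K)))
  have h2 : IsAlgebraic (Algebra.adjoin ℂ (Set.range fun i => (x i : K))) s :=
    isAlgebraic_algebraMap (⟨s, hs⟩ : Algebra.adjoin ℂ (Set.range fun i => (x i : K)))
  rw [div_eq_mul_inv]
  exact h1.mul h2.inv

theorem theta (x : Fin n → Kˣ) (hx : IsTranscendenceBasis ℂ (fun i => (x i : K))) :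
    ∃ D : Fin n → Derivation ℂ K K, W x D = 1 := by
  have h : ∀ k : Fin n, ∃ D : Derivation ℂ K K, ∀ i, D (x i : K) = if k = i then (x i : K) else 0 :=
    fun k => exists_der _ hx _
  choose D hD using h
  refine ⟨D, ?_⟩
  ext i k
  simp only [W, Matrix.of_apply, hD, Matrix.one_apply]
  split_ifs
  · exact div_self (x k).ne_zero
  · exact zero_div _

theorem lg_core (x : Fin n → Kˣ) (hx : AlgebraicIndependent ℂ (fun i => (x i : K)))
    (hT : IntermediateField.adjoin ℂ (Set.range fun i => (x i : K)) = ⊤) (u : Fin n → K) (gx : K)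
    (hg0 : gx ≠ 0) (hu : AlgebraicIndependent ℂ u)
    (hch : ∀ D : Derivation ℂ K K, D gx / gx = ∑ k, D (x k : K) / (x k : K) * u k)
    (hreg : ∀ P : Place ℂ K, (∀ i, P.ord (x i : K) = 0) → 0 ≤ P.ord gx)
    (hdeep : ∀ P : Place ℂ K, (∀ i, P.ord (x i : K) = 0) → 2 ≤ P.ord gx →
      ∀ D : Fin n → Derivation ℂ K K, (∀ i, DerReg P (D i)) →
      (Matrix.of fun i k : Fin n => D i (x k : K)).det = 0 ∨
        1 ≤ P.ord (Matrix.of fun i k : Fin n => D i (x k : K)).det) :
    LogGeneralType ℂ K n (fun P => (∃ i, P.ord (x i : K) ≠ 0) ∨ P.ord gx = 1) := by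
  have hb := basis_of x hx hT
  refine ⟨?_, 2, by norm_num, om x u, fun j => om_pluri x u j,
    fun P _ j => om_log x u gx hch P j, fun P _ hP j => ?_, ?_⟩
  · have := hb.cardinalMk_eq_trdeg
    rw [← this]
    simp
  · rw [not_or, not_exists] at hP
    obtain ⟨h1, h2⟩ := hP
    have h1' : ∀ i, P.ord (x i : K) = 0 := fun i => not_not.1 (h1 i)
    exact om_reg x u gx hg0 hch P h1' (hreg P h1') h2 (hdeep P h1') j
  · obtain ⟨D, hD⟩ := theta x hb
    refine ⟨D, ?_, ?_⟩
    · rw [om_zero, hD, Matrix.det_one]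
      norm_num
    · have e : (fun i : Fin n => om x u i.succ D / om x u 0 D) = u := by
        funext i
        rw [om_zero, om_succ, hD, Matrix.det_one]
        simp
      rw [e]
      exact hu

end Pool.Agent.Y290.KC
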