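import Pool.Agent.Y192.KC.Stm
import Pool.Agent.Y290.KC.Core

set_option autoImplicit false

/-!
Project KC (helper192), job KC5: the complement of a hypersurface in a torus is of log general type.
-/

namespace Pool.Agent.Y290.KC

open FF Pool.Agent.W602.GT Pool.Agent.Y192.OG Pool.Agent.Y192.KC

variable {K : Type} [Field K] [Algebra ℂ K] {n : ℕ}

/-- the logarithmic derivative -/
def ldh (D : Derivation ℂ K K) : Additive Kˣ →+ K where
  toFun a := D (a.toMul : K) / (a.toMul : K)
  map_zero' := by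
    show D ((1 : Kˣ) : K) / ((1 : Kˣ) : K) = 0
    rw [Units.val_one, Derivation.map_one_eq_zero, zero_div]
  map_add' a b := by
    show D ((a.toMul * b.toMul : Kˣ) : K) / ((a.toMul * b.toMul : Kˣ) : K) = _
    have ha : (a.toMul : K) ≠ 0 := Units.ne_zero _
    have hb : (b.toMul : K) ≠ 0 := Units.ne_zero _
    rw [Units.val_mul, Derivation.leibniz, smul_eq_mul, smul_eq_mul]
    field_simp
    ring

theorem ld_xm (D : Derivation ℂ K K) (x : Fin n → Kˣ) (c : Fin n → ℤ) :
    D (xm x c : K) / (xm x c : K) = ∑ i, (c i : K) * (D (x i : K) / (x i : K)) := by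
  have h1 : ldh D (Additive.ofMul (xm x c)) = ∑ i, ldh D (c i • Additive.ofMul (x i)) := by
    rw [← map_sum]
    rfl
  have h2 : ∀ i, ldh D (c i • Additive.ofMul (x i)) = (c i : K) * (D (x i : K) / (x i : K)) := by
    intro i
    rw [map_zsmul, zsmul_eq_mul]
    rfl
  have h3 : ldh D (Additive.ofMul (xm x c)) = D (xm x c : K) / (xm x c : K) := rfl
  rw [← h3, h1]
  exact Finset.sum_congr rfl fun i _ => h2 i

theorem D_xm (D : Derivation ℂ K K) (x : Fin n → Kˣ) (c : Fin n → ℤ) :
    D (xm x c : K) = ∑ i, (D (x i : K) / (x i : K)) * ((c i : K) * (xm x c : K)) := by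
  have h := ld_xm D x c
  rw [div_eq_iff (Units.ne_zero _), Finset.sum_mul] at h
  rw [h]
  exact Finset.sum_congr rfl fun i _ => by ring

theorem ep_sum (x : Fin n → Kˣ) (g : Lau n) :
    ep x g = ∑ c ∈ g.coeff.support, g.coeff c • (xm x c : K) := by
  conv_lhs => rw [← AddMonoidAlgebra.sum_coeff_single g]
  rw [Finsupp.sum, map_sum]
  exact Finset.sum_congr rfl fun c _ => ep_single x c _

theorem ep_dl (x : Fin n → Kˣ) (g : Lau n) (k : Fin n) :
    ep x (dl k g) = ∑ c ∈ g.coeff.support, g.coeff c • ((c k : K) * (xm x c : K)) := by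
  unfold dl
  rw [map_sum]
  refine Finset.sum_congr rfl fun c _ => ?_
  rw [ep_single, mul_comm, mul_smul, Int.cast_smul_eq_zsmul, zsmul_eq_mul]

theorem chain (D : Derivation ℂ K K) (x : Fin n → Kˣ) (g : Lau n) :
    D (ep x g) = ∑ k, (D (x k : K) / (x k : K)) * ep x (dl k g) := by
  simp only [ep_dl, Finset.mul_sum]
  rw [Finset.sum_comm, ep_sum, map_sum]
  refine Finset.sum_congr rfl fun c _ => ?_
  rw [Derivation.map_smul, D_xm, Finset.smul_sum]
  exact Finset.sum_congr rfl fun k _ => (mul_smul_comm _ _ _).symm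

theorem ep_reg (x : Fin n → Kˣ) (g : Lau n) (P : Place ℂ K) (hx : ∀ i, P.ord (x i : K) = 0) :
    P.Reg (ep x g) := by
  rw [ep_sum]
  refine reg_sum P _ _ fun c _ => ?_
  rw [Algebra.smul_def]
  refine P.reg_mul (P.reg_const _) ?_
  unfold xm
  rw [Units.coe_prod]
  refine reg_prod P _ _ fun i _ => Or.inr ?_
  rw [Units.val_zpow_eq_zpow_val, P.ord_zpow, hx i, mul_zero]

/-- KC5 -/
theorem t_lg : St_gauss → St_deep → St_lg := by
  intro hgauss hdeep K _ _ n x g hn hx hT hg hrad hstab
  have hu := hgauss K n x g hx hT hg hstab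
  have hg0 : ep x g ≠ 0 := by
    intro h
    have h1 := hu.ne_zero ⟨0, hn⟩
    apply h1
    rw [h, div_zero]
  refine lg_core x hx hT (fun i => ep x (dl i g) / ep x g) (ep x g) hg0 hu ?_ ?_ ?_
  · intro D
    rw [chain, Finset.sum_div]
    exact Finset.sum_congr rfl fun k _ => mul_div_assoc _ _ _
  · intro P hP
    exact (P.reg_iff hg0).1 (ep_reg x g P hP)
  · intro P hP h2 D hD
    exact hdeep K n x g hx hT hg hrad P hP h2 D hD

end Pool.Agent.Y290.KC
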